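import Pool.Agent.Helper8.StarReg.Ore
import Pool.Agent.Helper8.StarReg.Variety

/-!
# A subdirectly irreducible ∗-regular ring in the variety generated by the artinian ones which is
not directly finite

The ring `R` consists of adjointable endomorphisms of the real inner product space of
exponentially decaying sequences.  It contains the ideal `M` of finite rank operators, `R/M` is a
division ring (the ring of fractions of the algebra generated by weighted shifts whose weights have a
hierarchical structure), and the basic weighted shift is injective but not surjective.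
-/

set_option autoImplicit false

namespace Pool.Agent.Results.MP_e2c23f_al.NotDirectlyFiniteInVariety

open Pool.Agent.Helper8.StarReg

/-- `R` is von Neumann regular. -/
def IsRegular (R : Type) [Ring R] : Prop := ∀ a : R, ∃ x : R, a * x * a = a

/-- `R` is a ∗-regular ring: regular with proper involution. -/
def IsStarRegular (R : Type) [Ring R] [StarRing R] : Prop :=
  IsRegular R ∧ ∀ x : R, star x * x = 0 → x = 0

/-- `M` is the smallest nonzero two-sided ideal of `R`. -/
def IsMinimalIdeal (R : Type) [Ring R] (M : TwoSidedIdeal R) : Prop :=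
  M ≠ ⊥ ∧ ∀ I : TwoSidedIdeal R, I ≠ ⊥ → M ≤ I

/-- The corner `eRe` is unit-regular. -/
def CornerUnitRegular (R : Type) [Ring R] (e : R) : Prop :=
  ∀ a : R, e * a * e = a →
    ∃ u v : R, e * u * e = u ∧ e * v * e = v ∧ u * v = e ∧ v * u = e ∧ a = a * u * a

/-- `R` is a homomorphic image, as a ∗-ring, of a regular ∗-closed subring `T` of a product of
artinian ∗-regular rings. -/
def InVarietyOfArtinian (R : Type) [Ring R] [StarRing R] : Prop :=
  ∃ (I : Type) (S : I → Type) (_ : ∀ i, Ring (S i)) (_ : ∀ i, StarRing (S i)),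
    (∀ i, IsArtinianRing (S i)) ∧ (∀ i, IsStarRegular (S i)) ∧
    ∃ (T : Subring ((i : I) → S i)) (f : T →+* R),
      (∀ x ∈ T, star x ∈ T) ∧ (∀ x ∈ T, ∃ y ∈ T, x * y * x = x) ∧
      (∀ (x : T) (hx : star x.1 ∈ T), f ⟨star x.1, hx⟩ = star (f x)) ∧
      Function.Surjective f

theorem result : ∃ (R : Type) (_ : Ring R) (_ : StarRing R) (M : TwoSidedIdeal R),
    IsStarRegular R ∧ IsMinimalIdeal R M ∧
    (∀ e : R, e ∈ M → star e = e → e * e = e → CornerUnitRegular R e) ∧
    (∀ a : R, a ∉ M → ∃ b : R, a * b - 1 ∈ M ∧ b * a - 1 ∈ M) ∧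
    InVarietyOfArtinian R ∧
    ∃ x y : R, y * x = 1 ∧ x * y ≠ 1 := by
  let inst : StarRing RR := starRingOf RR RR_star
  have hreg : IsRegular RR := by
    intro a
    obtain ⟨x, hx, h⟩ := R_regular RR RR_fr RR_div a.1 a.2
    exact ⟨⟨x, hx⟩, Subtype.ext h.symm⟩
  have hprop : ∀ x : RR, star x * x = 0 → x = 0 := by
    intro x hx
    refine Subtype.ext (proper x.1 ?_)
    exact congrArg Subtype.val hx
  refine ⟨RR, inferInstance, inst, M RR, ⟨hreg, hprop⟩, ⟨?_, ?_⟩, ?_, ?_, ?_, ?_⟩
  · intro h
    obtain ⟨a, ha0, ha⟩ := exists_ne_zero_M RR RR_fr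
    rw [h] at ha
    exact ha0 ((TwoSidedIdeal.mem_bot RR).1 ha)
  · intro I hI
    refine M_min RR RR_fr I ?_
    by_contra hcon
    push Not at hcon
    apply hI
    rw [eq_bot_iff]
    intro x hx
    rw [TwoSidedIdeal.mem_bot]
    exact hcon x hx
  · intro e he hes hee a hae
    obtain ⟨u, v, hu, hv, h1, h2, h3, h4, h5⟩ := corner (mem_M.1 he) (congrArg Subtype.val hes)
      (congrArg Subtype.val hee) (congrArg Subtype.val hae)
    exact ⟨⟨u, RR_fr u hu⟩, ⟨v, RR_fr v hv⟩, Subtype.ext h1, Subtype.ext h2, Subtype.ext h3,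
      Subtype.ext h4, Subtype.ext h5⟩
  · intro a ha
    have ha' : ¬ Fr a.1 := fun h => ha (mem_M.2 h)
    obtain ⟨b, hb, h1⟩ := RR_div a.1 a.2 ha'
    have hπ : π a.1 * π b = 1 := by rw [← map_mul, ← map_one π, π_eq]; exact h1
    have hb' : ¬ Fr b := by
      intro h
      rw [π_eq_zero.2 h, mul_zero] at hπ
      exact zero_ne_one hπ
    obtain ⟨c, hc, h2⟩ := RR_div b hb hb'
    have hπ2 : π b * π c = 1 := by rw [← map_mul, ← map_one π, π_eq]; exact h2
    have hac : π a.1 = π c := by
      calc π a.1 = π a.1 * (π b * π c) := by rw [hπ2, mul_one]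
        _ = (π a.1 * π b) * π c := by rw [mul_assoc]
        _ = π c := by rw [hπ, one_mul]
    refine ⟨⟨b, hb⟩, mem_M.2 h1, mem_M.2 ?_⟩
    show Fr (b * a.1 - 1)
    rw [← π_eq, map_mul, map_one, hac, hπ2]
  · obtain ⟨T, f, h1, h2, h3, h4, h5, h6, h7⟩ := variety RR RR_star (fun a ha => by
      obtain ⟨x, hx, h⟩ := R_regular RR RR_fr RR_div a ha
      exact ⟨x, hx, h⟩)
    refine ⟨Ud VS, fun U => Module.End ℝ U.1, inferInstance, inferInstance, inferInstance,
      fun U => ⟨End_regular U, End_proper U⟩, T,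
      { toFun := fun x => f x.1
        map_one' := h3
        map_mul' := fun x y => h5 x.1 x.2 y.1 y.2
        map_zero' := by
          have h := h4 0 T.zero_mem 0 T.zero_mem
          rw [add_zero] at h
          exact left_eq_add.1 h
        map_add' := fun x y => h4 x.1 x.2 y.1 y.2 }, h1, h2, ?_, ?_⟩
    · intro x hx
      exact Subtype.ext (h6 x.1 x.2)
    · intro r
      obtain ⟨x, hx, h⟩ := h7 r
      exact ⟨⟨x, hx⟩, h⟩
  · obtain ⟨y, hy⟩ := hreg (⟨xx, xx_mem⟩ : RR)
    have hy1 : ∀ v, y.1.1 (xx.1 v) = v := by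
      intro v
      apply xx_injective
      exact congrArg (fun a : RR => a.1.1 v) hy
    refine ⟨⟨xx, xx_mem⟩, y, Subtype.ext (Ad_ext hy1), fun h => ?_⟩
    apply xx_not_surjective
    intro w
    exact ⟨y.1.1 w, congrArg (fun a : RR => a.1.1 w) h⟩

end Pool.Agent.Results.MP_e2c23f_al.NotDirectlyFiniteInVariety
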